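import Pool.Agent.Helper5.FV.Stmts
import Pool.Agent.Helper5.UN.F2

set_option autoImplicit false

open Finset Pool.Agent.Helper8.UN

namespace Pool.Agent.Helper5.FV

/-- the blocks of `Q` are colour classes of `f` on `W` -/
def fbs_P {n : ℕ} (W : Finset (Fin n)) (Q : Finset (Finset (Fin n))) (f : Fin n → ℕ) : Prop :=
  ∀ B ∈ Q, ∃ c, 1 ≤ c ∧ B = W.filter (fun v => f v = c)

open scoped Classical in
/-- surjective colourings such that the blocks of `Q` are classes -/
noncomputable def fbs_N {n : ℕ} (E : Finset (Finset (Fin n))) (W : Finset (Fin n))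
    (Q : Finset (Finset (Fin n))) (k : ℕ) : Finset (Fin n → ℕ) :=
  (SS E W k).filter (fbs_P W Q)

theorem fbs_mem {n : ℕ} (E : Finset (Finset (Fin n))) (W : Finset (Fin n))
    (Q : Finset (Finset (Fin n))) (k : ℕ) (f : Fin n → ℕ) :
    f ∈ fbs_N E W Q k ↔ f ∈ SS E W k ∧ fbs_P W Q f := by
  classical
  unfold fbs_N
  simp only [Finset.mem_filter]

theorem fbs_sw0 (c d x : ℕ) (hc : 1 ≤ c) (hd : 1 ≤ d) (hx : 1 ≤ x) : 1 ≤ Equiv.swap c d x := by
  rw [Equiv.swap_apply_def]
  split_ifs <;> omega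

theorem fbs_sw1 (c d x k : ℕ) (hc : c ≤ k) (hd : d ≤ k) (hx : x ≤ k) : Equiv.swap c d x ≤ k := by
  rw [Equiv.swap_apply_def]
  split_ifs <;> omega

theorem fbs_sw2 (c d x : ℕ) : Equiv.swap c d (Equiv.swap c d x) = x := by
  simp

theorem fbs_swap {n : ℕ} (E : Finset (Finset (Fin n))) (W : Finset (Fin n))
    (Q : Finset (Finset (Fin n))) (k c d : ℕ) (f : Fin n → ℕ) (hc : 1 ≤ c) (hck : c ≤ k)
    (hd : 1 ≤ d) (hdk : d ≤ k) (hf : f ∈ fbs_N E W Q k) :
    (fun v => Equiv.swap c d (f v)) ∈ fbs_N E W Q k := by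
  rw [fbs_mem, f2_SS, f2_CC] at hf ⊢
  obtain ⟨⟨⟨⟨h1, h2⟩, h3⟩, h4⟩, h5⟩ := hf
  refine ⟨⟨⟨⟨fun v hv => ?_, fun v hv => ?_⟩, ?_⟩, ?_⟩, ?_⟩
  · exact ⟨fbs_sw0 c d _ hc hd (h1 v hv).1, fbs_sw1 c d _ k hck hdk (h1 v hv).2⟩
  · rw [h2 v hv]
    exact Equiv.swap_apply_of_ne_of_ne (by omega) (by omega)
  · intro e he hsub
    obtain ⟨u, hu, v, hv, huv⟩ := h3 e he hsub
    exact ⟨u, hu, v, hv, fun h => huv ((Equiv.swap c d).injective h)⟩
  · intro i hi hik
    obtain ⟨v, hv, hvi⟩ := h4 (Equiv.swap c d i) (fbs_sw0 c d i hc hd hi)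
      (fbs_sw1 c d i k hck hdk hik)
    refine ⟨v, hv, ?_⟩
    rw [hvi]
    exact fbs_sw2 c d i
  · intro B hB
    obtain ⟨a, ha, hBa⟩ := h5 B hB
    refine ⟨Equiv.swap c d a, fbs_sw0 c d a hc hd ha, ?_⟩
    rw [hBa]
    ext v
    rw [Finset.mem_filter, Finset.mem_filter]
    refine and_congr_right fun _ => ?_
    exact (Equiv.swap c d).injective.eq_iff.symm

theorem fbs_last {n : ℕ} (E : Finset (Finset (Fin n))) (W B : Finset (Fin n))
    (Q : Finset (Finset (Fin n))) (k : ℕ) (b : Fin n) (hBW : B ⊆ W) (hb : b ∈ B)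
    (hAl : Pool.Agent.Helper89.UB.Al E B) (hne : ∀ B' ∈ Q, B'.Nonempty)
    (hd : ∀ B' ∈ Q, Disjoint B' B) :
    ((fbs_N E W (insert B Q) (k + 1)).filter (fun f => f b = k + 1)).card =
      (fbs_N E (W \ B) Q k).card := by
  refine Finset.card_nbij' (f2_i B) (f2_j B k) ?_ ?_ ?_ ?_
  · intro f hf
    rw [Finset.mem_coe, Finset.mem_filter, fbs_mem] at hf
    obtain ⟨⟨hf1, hf2⟩, hf3⟩ := hf
    obtain ⟨c, hc, hBc⟩ := hf2 B (Finset.mem_insert_self _ _)
    have hcb : f b = c := by
      have := hb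
      rw [hBc, Finset.mem_filter] at this
      exact this.2
    have hB : f2_B W k f = B := by
      rw [f2_B, hBc, ← hcb, hf3]
    rw [f2_SS] at hf1
    rw [Finset.mem_coe, fbs_mem, f2_SS]
    refine ⟨⟨f2_imem E W B k f hf1.1 hB, ?_⟩, ?_⟩
    · intro i hi hik
      obtain ⟨v, hv, hvi⟩ := hf1.2 i hi (by omega)
      have hvB : v ∉ B := by
        intro h
        rw [← hB, f2_B, Finset.mem_filter] at h
        omega
      refine ⟨v, Finset.mem_sdiff.mpr ⟨hv, hvB⟩, ?_⟩
      simp only [f2_i, if_neg hvB]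
      exact hvi
    · intro B' hB'
      obtain ⟨a, ha, hBa⟩ := hf2 B' (Finset.mem_insert_of_mem hB')
      refine ⟨a, ha, ?_⟩
      ext v
      rw [Finset.mem_filter, Finset.mem_sdiff]
      constructor
      · intro hv
        have hvB : v ∉ B := Finset.disjoint_left.1 (hd B' hB') hv
        rw [hBa, Finset.mem_filter] at hv
        refine ⟨⟨hv.1, hvB⟩, ?_⟩
        simp only [f2_i, if_neg hvB]
        exact hv.2
      · rintro ⟨⟨hv1, hv2⟩, hv3⟩
        simp only [f2_i, if_neg hv2] at hv3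
        rw [hBa, Finset.mem_filter]
        exact ⟨hv1, hv3⟩
  · intro g hg
    rw [Finset.mem_coe, fbs_mem, f2_SS] at hg
    obtain ⟨⟨hg1, hg2⟩, hg3⟩ := hg
    have h1 := f2_jmem E W B k g hBW hAl hg1
    rw [Finset.mem_coe, Finset.mem_filter, fbs_mem, f2_SS]
    refine ⟨⟨⟨h1.1, ?_⟩, ?_⟩, ?_⟩
    · intro i hi hik
      rcases Nat.lt_or_ge k i with hki | hki
      · refine ⟨b, hBW hb, ?_⟩
        simp only [f2_j, if_pos hb]
        omega
      · obtain ⟨v, hv, hvi⟩ := hg2 i hi hki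
        rw [Finset.mem_sdiff] at hv
        refine ⟨v, hv.1, ?_⟩
        simp only [f2_j, if_neg hv.2]
        exact hvi
    · intro B' hB'
      rw [Finset.mem_insert] at hB'
      rcases hB' with rfl | hB'
      · exact ⟨k + 1, by omega, h1.2.symm⟩
      · obtain ⟨a, ha, hBa⟩ := hg3 B' hB'
        obtain ⟨x, hx⟩ := hne B' hB'
        have hx' := hx
        rw [hBa, Finset.mem_filter] at hx'
        rw [f2_CC] at hg1
        have hak : a ≤ k := hx'.2 ▸ (hg1.1.1 x hx'.1).2
        refine ⟨a, ha, ?_⟩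
        ext v
        rw [Finset.mem_filter]
        constructor
        · intro hv
          rw [hBa, Finset.mem_filter, Finset.mem_sdiff] at hv
          refine ⟨hv.1.1, ?_⟩
          simp only [f2_j, if_neg hv.1.2]
          exact hv.2
        · rintro ⟨hv1, hv2⟩
          by_cases hvB : v ∈ B
          · simp only [f2_j, if_pos hvB] at hv2
            omega
          · simp only [f2_j, if_neg hvB] at hv2
            rw [hBa, Finset.mem_filter, Finset.mem_sdiff]
            exact ⟨⟨hv1, hvB⟩, hv2⟩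
    · simp only [f2_j, if_pos hb]
  · intro f hf
    rw [Finset.mem_coe, Finset.mem_filter, fbs_mem] at hf
    obtain ⟨⟨hf1, hf2⟩, hf3⟩ := hf
    obtain ⟨c, hc, hBc⟩ := hf2 B (Finset.mem_insert_self _ _)
    have hcb : f b = c := by
      have := hb
      rw [hBc, Finset.mem_filter] at this
      exact this.2
    have hB : f2_B W k f = B := by
      rw [f2_B, hBc, ← hcb, hf3]
    exact f2_ji W B k f hB
  · intro g hg
    rw [Finset.mem_coe, fbs_mem, f2_SS] at hg
    exact f2_ij E W B k g hg.1.1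

theorem fbs_step {n : ℕ} (E : Finset (Finset (Fin n))) (W B : Finset (Fin n))
    (Q : Finset (Finset (Fin n))) (k : ℕ) (hBW : B ⊆ W) (hB : B.Nonempty)
    (hAl : Pool.Agent.Helper89.UB.Al E B) (hne : ∀ B' ∈ Q, B'.Nonempty)
    (hd : ∀ B' ∈ Q, Disjoint B' B) :
    (fbs_N E W (insert B Q) (k + 1)).card = (k + 1) * (fbs_N E (W \ B) Q k).card := by
  obtain ⟨b, hb⟩ := hB
  rw [Finset.card_eq_sum_card_fiberwise (f := fun f => f b) (t := Finset.Icc 1 (k + 1))]
  · have h : ∀ c ∈ Finset.Icc 1 (k + 1),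
        ((fbs_N E W (insert B Q) (k + 1)).filter (fun f => f b = c)).card =
          (fbs_N E (W \ B) Q k).card := by
      intro c hc
      rw [Finset.mem_Icc] at hc
      rw [← fbs_last E W B Q k b hBW hb hAl hne hd]
      refine Finset.card_nbij' (fun f v => Equiv.swap c (k + 1) (f v))
        (fun f v => Equiv.swap c (k + 1) (f v)) ?_ ?_ ?_ ?_
      · intro f hf
        rw [Finset.mem_coe, Finset.mem_filter] at hf ⊢
        refine ⟨fbs_swap E W _ (k + 1) c (k + 1) f hc.1 hc.2 (by omega) le_rfl hf.1, ?_⟩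
        simp only [hf.2, Equiv.swap_apply_left]
      · intro f hf
        rw [Finset.mem_coe, Finset.mem_filter] at hf ⊢
        refine ⟨fbs_swap E W _ (k + 1) c (k + 1) f hc.1 hc.2 (by omega) le_rfl hf.1, ?_⟩
        simp only [hf.2, Equiv.swap_apply_right]
      · intro f _
        funext v
        exact fbs_sw2 _ _ _
      · intro f _
        funext v
        exact fbs_sw2 _ _ _
    rw [Finset.sum_congr rfl h, Finset.sum_const, Nat.card_Icc, smul_eq_mul]
    simp
  · intro f hf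
    rw [Finset.mem_coe, fbs_mem, f2_SS, f2_CC] at hf
    rw [Finset.mem_coe, Finset.mem_Icc]
    exact hf.1.1.1.1 b (hBW hb)

theorem fbs_main {n : ℕ} (E : Finset (Finset (Fin n))) (Q : Finset (Finset (Fin n))) :
    ∀ (W : Finset (Fin n)) (k : ℕ), (∀ B ∈ Q, B ⊆ W ∧ B.Nonempty ∧
      Pool.Agent.Helper89.UB.Al E B) → (∀ B ∈ Q, ∀ B' ∈ Q, B ≠ B' → Disjoint B B') →
      (fbs_N E W Q k).card = k.descFactorial Q.card * AA E (W \ un Q) (k - Q.card) := by
  induction Q using Finset.induction_on with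
  | empty =>
    intro W k _ _
    have h1 : fbs_N E W ∅ k = SS E W k := by
      ext f
      rw [fbs_mem]
      refine ⟨fun h => h.1, fun h => ⟨h, ?_⟩⟩
      intro B hB
      exact absurd hB (Finset.notMem_empty _)
    have h2 : W \ un (∅ : Finset (Finset (Fin n))) = W := by
      simp [un]
    rw [h1, h2]
    simp [AA]
  | insert B Q hBQ ih =>
    intro W k hQ hdis
    obtain ⟨hBW, hBne, hAl⟩ := hQ B (Finset.mem_insert_self _ _)
    have hd : ∀ B' ∈ Q, Disjoint B' B := fun B' hB' =>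
      hdis B' (Finset.mem_insert_of_mem hB') B (Finset.mem_insert_self _ _)
        (fun h => hBQ (h ▸ hB'))
    rw [Finset.card_insert_of_notMem hBQ]
    rcases Nat.eq_zero_or_pos k with hk | hk
    · subst hk
      have h0 : fbs_N E W (insert B Q) 0 = ∅ := by
        rw [Finset.eq_empty_iff_forall_notMem]
        intro f hf
        rw [fbs_mem, f2_SS, f2_CC] at hf
        obtain ⟨b, hb⟩ := hBne
        have := hf.1.1.1.1 b (hBW hb)
        omega
      rw [h0, Finset.card_empty]
      simp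
    · obtain ⟨k', rfl⟩ : ∃ k', k = k' + 1 := ⟨k - 1, by omega⟩
      rw [fbs_step E W B Q k' hBW hBne hAl
        (fun B' hB' => (hQ B' (Finset.mem_insert_of_mem hB')).2.1) hd]
      rw [ih (W \ B) k' (fun B' hB' => ⟨fun v hv => Finset.mem_sdiff.2
          ⟨(hQ B' (Finset.mem_insert_of_mem hB')).1 hv, Finset.disjoint_left.1 (hd B' hB') hv⟩,
          (hQ B' (Finset.mem_insert_of_mem hB')).2⟩)
        (fun B1 h1 B2 h2 => hdis B1 (Finset.mem_insert_of_mem h1) B2
          (Finset.mem_insert_of_mem h2))]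
      have h3 : (W \ B) \ un Q = W \ un (insert B Q) := by
        ext v
        simp only [un, Finset.mem_sdiff, Finset.biUnion_insert, Finset.mem_union, id]
        tauto
      rw [h3, Nat.succ_descFactorial_succ, ← mul_assoc]
      congr 2
      omega

theorem st_FBS : ST_FBS := by
  classical
  intro n k E W0 Q _ hQ
  unfold QQ at hQ
  simp only [Finset.mem_filter] at hQ
  obtain ⟨-, hQ1, hQ2, hQ3⟩ := hQ
  rw [← fbs_main E Q univ k (fun B hB => ⟨Finset.subset_univ _, ?_, (hQ1 B hB).2⟩) hQ2]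
  · refine congrArg Finset.card ?_
    ext f
    rw [Finset.mem_filter, fbs_mem]
    refine and_congr_right fun hf => ?_
    rw [f2_SS, f2_CC] at hf
    constructor
    · intro h B hB
      rw [← h] at hB
      unfold cls at hB
      rw [Finset.mem_image] at hB
      obtain ⟨u, hu, rfl⟩ := hB
      exact ⟨f u, (hf.1.1.1 u (Finset.mem_univ _)).1, rfl⟩
    · intro h
      unfold cls
      ext B
      rw [Finset.mem_image]
      constructor
      · rintro ⟨u, hu, rfl⟩
        have hu2 := hQ3 hu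
        rw [un, Finset.mem_biUnion] at hu2
        obtain ⟨B, hB, huB⟩ := hu2
        obtain ⟨c, hc, hBc⟩ := h B hB
        have : f u = c := by
          rw [id, hBc, Finset.mem_filter] at huB
          exact huB.2
        rw [this, ← hBc]
        exact hB
      · intro hB
        obtain ⟨u, hu⟩ := (hQ1 B hB).1
        rw [Finset.mem_inter] at hu
        obtain ⟨c, hc, hBc⟩ := h B hB
        have : f u = c := by
          have := hu.1
          rw [hBc, Finset.mem_filter] at this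
          exact this.2
        exact ⟨u, hu.2, by rw [this, ← hBc]⟩
  · obtain ⟨u, hu⟩ := (hQ1 B hB).1
    exact ⟨u, (Finset.mem_inter.1 hu).1⟩

end Pool.Agent.Helper5.FV
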